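import Pool.Agent.Run7.h242.STMain

/-!
# The structure of extremal point-line configurations

Question Q1 asks whether every set of `m` points and `n` lines in the plane with at least
`c₃ m^(2/3) n^(2/3)` incidences is, up to a constant proportion and a projective transformation, a
lattice section, either in the plane of the points or in the dual plane. We prove that the answer
is no. The examples are the grids of Elekes over the ring `ℤ[√2]`; the proof uses cross ratios.
-/

set_option autoImplicit false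

open Run7.h242.ST

namespace Pool.Agent.Results.MP_fad2aa_co.QuadraticFieldGrids

/-- The statement of Q1. The notions `IsLine`, `incidences`, `PointsLattice` (alternative (a)) and
`LinesLattice` (alternative (b)) are defined in `Pool.Agent.Run7.h242.STMain`. -/
def Q1 : Prop :=
  ∀ C₁ c₂ c₃ : ℝ, 0 < C₁ → 0 < c₂ → 0 < c₃ → ∃ c C : ℝ, 0 < c ∧ 0 < C ∧ ∃ N : ℕ,
    ∀ m n : ℕ, N ≤ m → N ≤ n → c₂ * √(n : ℝ) ≤ m → (m : ℝ) ≤ C₁ * (n : ℝ) ^ 2 →
      ∀ (P : Finset (ℝ × ℝ)) (L : Finset (Set (ℝ × ℝ))), P.card = m → L.card = n →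
        (∀ l ∈ L, IsLine l) →
        c₃ * (m : ℝ) ^ (2 / 3 : ℝ) * (n : ℝ) ^ (2 / 3 : ℝ) ≤ incidences P L →
        PointsLattice c C P ∨ LinesLattice c C L

/-- Q1 is false. Moreover, for all positive integers `r` and `k` there are `16 r² k⁴` points and
`r⁴ k²` lines with at least `m^(2/3) n^(2/3) / 16` incidences such that at most the proportion `2/k`
of the points can be mapped into a lattice section (of any size) by a projective transformation, and
at most the proportion `2/r` of the dual points of the lines. -/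
theorem result : ¬ Q1 ∧ ∀ r k : ℕ, 0 < r → 0 < k →
    ∃ (P : Finset (ℝ × ℝ)) (L : Finset (Set (ℝ × ℝ))),
      P.card = 16 * r ^ 2 * k ^ 4 ∧ L.card = r ^ 4 * k ^ 2 ∧ (∀ l ∈ L, IsLine l) ∧
      (1 / 16 : ℝ) * (P.card : ℝ) ^ (2 / 3 : ℝ) * (L.card : ℝ) ^ (2 / 3 : ℝ) ≤ incidences P L ∧
      (∀ P' ⊆ P, ∀ s : ℝ, InLatticeSection (P' : Set (ℝ × ℝ)) s →
        k * P'.card ≤ 2 * P.card) ∧
      (∀ D : Finset (ℝ × ℝ), (∀ q ∈ D, dualLine q ∈ L) → ∀ s : ℝ,
        InLatticeSection (D : Set (ℝ × ℝ)) s → r * D.card ≤ 2 * L.card) := by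
  constructor
  · intro h
    obtain ⟨c, C, hc, -, N, h1⟩ := h 16 1 (1 / 16) (by norm_num) one_pos (by norm_num)
    obtain ⟨k0, hk0⟩ := exists_nat_gt (2 / c)
    set k := max k0 (max N 1) with hk
    have hk1 : 1 ≤ k := le_trans (le_max_right _ _) (le_max_right _ _)
    have hkN : N ≤ k := le_trans (le_max_left _ _) (le_max_right _ _)
    have hkc : 2 / c < k := lt_of_lt_of_le hk0 (by exact_mod_cast le_max_left k0 _)
    have hk6 : k ≤ k ^ 6 := Nat.le_self_pow (by norm_num) k
    have hm : (Pts k k).card = 16 * k ^ 6 := by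
      rw [card_Pts]
      ring
    have hn : (Lns k k).card = k ^ 6 := by
      rw [card_Lns]
      ring
    obtain ⟨f1, f2⟩ := family c hc k k hkc hkc C
    have hkr : (1 : ℝ) ≤ (k : ℝ) ^ 6 := one_le_pow₀ (by exact_mod_cast hk1)
    rcases h1 (Pts k k).card (Lns k k).card (by rw [hm]; omega) (by rw [hn]; omega)
      (by
        rw [hm, hn]
        push_cast
        have h2 : √((k : ℝ) ^ 6) = (k : ℝ) ^ 3 := by
          rw [show (k : ℝ) ^ 6 = ((k : ℝ) ^ 3) ^ 2 by ring]
          exact Real.sqrt_sq (by positivity)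
        rw [h2]
        have h3 : (1 : ℝ) ≤ (k : ℝ) ^ 3 := one_le_pow₀ (by exact_mod_cast hk1)
        nlinarith [h3])
      (by
        rw [hm, hn]
        push_cast
        nlinarith [hkr]) (Pts k k) (Lns k k) rfl rfl (lines_Lns k k) (rich k k) with h2 | h2
    · exact f1 h2
    · exact f2 h2
  · intro r k _ _
    exact ⟨Pts r k, Lns r k, card_Pts r k, card_Lns r k, lines_Lns r k, rich r k,
      fun P' hP' s hs => points_bound r k P' hP' s hs,
      fun D hD s hs => lines_bound r k D hD s hs⟩

end Pool.Agent.Results.MP_fad2aa_co.QuadraticFieldGrids
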